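import Pool.Agent.Run7.h105.QS.Cmb
import Pool.Agent.Run7.h182.QS.Iface

set_option autoImplicit false

namespace Run7.h105.QS

theorem t_COMB2 : Run7.h182.QS.S_COMB2 := by
  intro N _ B ε hε
  exact comb2 N B ε hε

end Run7.h105.QS
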