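import Pool.Agent.Run7.h897.ST.Comb

/-!
# The combinatorics of the bad cells, effective

The proof of `Pool.Agent.Run7.h897.CO.comb` (helper897) with explicit constants.
-/

set_option autoImplicit false

namespace Run7.h105.QS

open Run7.h4.VS (ring)
open Pool.Agent.Run7.h897.CO

theorem comb2 (N : ℕ) [NeZero N] (B ε : ℝ) (hε : 0 < ε) : ∃ κ : ℕ, 1 ≤ κ ∧
    ∀ (c D : ℕ), 1 ≤ D → ∀ (n L : ℕ) [NeZero n] [NeZero L], κ * D ≤ n → κ * D ≤ L →
    ∀ (e : ZMod n → ZMod L → ℝ) (q : ZMod n → ZMod L → ZMod N), (∀ t x, 0 ≤ e t x) →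
    (∀ t x, e t x < (D : ℝ)⁻¹ → q t x = 0) →
    (∀ (s : ZMod n) (r : ZMod L), ∑ t ∈ Finset.range (κ * D), ∑ x ∈ Finset.range (κ * D),
      e (s + t) (r + x) ≤ B) →
    (c : ZMod N) * (∑ t, ∑ x, q t x) ≠ 0 →
    ∃ (s : ZMod n) (r : ZMod L) (a b : ℕ), 1 ≤ a ∧ 1 ≤ b ∧ a ≤ κ * D ∧ b ≤ κ * D ∧
      (∀ p ∈ ring a b, e (s + p.1) (r + p.2) < (D : ℝ)⁻¹) ∧
      D * ∑ p ∈ ring a b, e (s + p.1) (r + p.2) ≤ ε ∧
      (c : ZMod N) * (∑ t ∈ Finset.range a, ∑ x ∈ Finset.range b, q (s + t) (r + x)) ≠ 0 := by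
  obtain ⟨m, hm⟩ : ∃ m, m = min 1 ε := ⟨_, rfl⟩
  have hm0 : 0 < m := by rw [hm]; positivity
  have hm1 : m ≤ 1 := by rw [hm]; exact min_le_left _ _
  have hm2 : m ≤ ε := by rw [hm]; exact min_le_right _ _
  obtain ⟨K, hK⟩ := exists_nat_gt (4 * B / m)
  rw [div_lt_iff₀ hm0] at hK
  refine ⟨4 * (K + 1), by omega, ?_⟩
  intro c D hD n L _ _ hn hL e q he hq hrect htot
  have hD' : (1 : ℝ) ≤ D := by exact_mod_cast hD
  have hD0 : (0 : ℝ) < D := by linarith
  obtain ⟨θ, hθ⟩ : ∃ θ, θ = m / (4 * D) := ⟨_, rfl⟩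
  have hθ0 : 0 < θ := by rw [hθ]; positivity
  have hθD : D * (4 * θ) = m := by rw [hθ]; field_simp
  have hθ1 : 4 * θ ≤ (D : ℝ)⁻¹ := by
    rw [← one_div, le_div_iff₀ hD0]
    linarith
  obtain ⟨R, hRdef⟩ : ∃ R, R = (K + 1) * D - 1 := ⟨_, rfl⟩
  have hKD : 1 ≤ (K + 1) * D := Nat.mul_pos (Nat.succ_pos K) hD
  have hR1 : R + 1 = (K + 1) * D := by omega
  have hR : B < R * θ := by
    have h1 : (R : ℝ) + 1 = (K + 1) * D := by exact_mod_cast hR1
    have h2 : (K : ℝ) * D ≤ R := by nlinarith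
    have h3 : (K : ℝ) * D * θ ≤ R * θ := mul_le_mul_of_nonneg_right h2 hθ0.le
    have h4 : (K : ℝ) * D * θ = K * m / 4 := by
      have : (K : ℝ) * D * θ = K * (D * (4 * θ)) / 4 := by ring
      rw [this, hθD]
    linarith
  have hbig : 4 * R + 4 = 4 * (K + 1) * D := by
    rw [mul_assoc, ← hR1]
    ring
  by_contra hcon
  push Not at hcon
  apply htot
  -- the rectangles
  have hsub : ∀ (s : ZMod n) (r : ZMod L) (a b : ℕ), a ≤ 4 * R + 4 → b ≤ 4 * R + 4 →
      ∑ t ∈ Finset.range a, ∑ x ∈ Finset.range b, e (s + (t : ZMod n)) (r + (x : ZMod L)) ≤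
        B := by
    intro s r a b ha hb
    refine le_trans ?_ (hrect s r)
    rw [hbig] at ha hb
    calc ∑ t ∈ Finset.range a, ∑ x ∈ Finset.range b, e (s + (t : ZMod n)) (r + (x : ZMod L))
        ≤ ∑ t ∈ Finset.range a, ∑ x ∈ Finset.range (4 * (K + 1) * D),
            e (s + (t : ZMod n)) (r + (x : ZMod L)) :=
          Finset.sum_le_sum fun t _ => Finset.sum_le_sum_of_subset_of_nonneg
            (Finset.range_mono hb) fun _ _ _ => he _ _
      _ ≤ _ := Finset.sum_le_sum_of_subset_of_nonneg (Finset.range_mono ha) fun _ _ _ =>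
            Finset.sum_nonneg fun _ _ => he _ _
  have hex : ∀ p : ZMod n × ZMod L, ∃ (s : ZMod n) (a : ℕ) (r : ZMod L) (b : ℕ),
      a ≤ 2 * R + 1 ∧ b ≤ 2 * R + 1 ∧ p.1 ∈ arc s a ∧ p.2 ∈ arc r b ∧
      col e s r b < θ ∧ col e (s + ((a - 1 : ℕ) : ZMod n)) r b < θ ∧
      row e s r a < θ ∧ row e s (r + ((b - 1 : ℕ) : ZMod L)) a < θ := by
    intro p
    obtain ⟨u, a, v, b, h1, h2, h3, h4, h5, h6, h7, h8, h9, h10⟩ := exists_rect he hR
      (s0 := p.1 - (R : ZMod n)) (r0 := p.2 - (R : ZMod L))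
      (hsub _ _ (2 * R + 1) (2 * R + 1) (by omega) (by omega))
    refine ⟨p.1 - (R : ZMod n) + (u : ZMod n), a, p.2 - (R : ZMod L) + (v : ZMod L), b,
      by omega, by omega, mem_arc.2 ⟨R - u, by omega, ?_⟩, mem_arc.2 ⟨R - v, by omega, ?_⟩,
      h7, ?_, h9, ?_⟩
    · push_cast [Nat.cast_sub h1]; ring
    · push_cast [Nat.cast_sub h4]; ring
    · have e1 : p.1 - (R : ZMod n) + (u : ZMod n) + ((a - 1 : ℕ) : ZMod n) =
          p.1 - (R : ZMod n) + ((u + a - 1 : ℕ) : ZMod n) := by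
        have : u + a - 1 = u + (a - 1) := by omega
        rw [this]
        push_cast
        ring
      rw [e1]
      exact h8
    · have e1 : p.2 - (R : ZMod L) + (v : ZMod L) + ((b - 1 : ℕ) : ZMod L) =
          p.2 - (R : ZMod L) + ((v + b - 1 : ℕ) : ZMod L) := by
        have : v + b - 1 = v + (b - 1) := by omega
        rw [this]
        push_cast
        ring
      rw [e1]
      exact h10
  choose s a r b ha hb hs hr c1 c2 c3 c4 using hex
  classical
  obtain ⟨f, hf⟩ : ∃ f : ZMod n × ZMod L → ZMod N, f = fun p => (c : ZMod N) * q p.1 p.2 :=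
    ⟨_, rfl⟩
  obtain ⟨F, hF⟩ : ∃ F : ZMod n × ZMod L → Finset (ZMod n × ZMod L),
      F = fun p => arc (s p) (a p) ×ˢ arc (r p) (b p) := ⟨_, rfl⟩
  have e0 : (c : ZMod N) * ∑ t, ∑ x, q t x = ∑ p ∈ Finset.univ.biUnion F, f p := by
    have h1 : Finset.univ.biUnion F = Finset.univ := by
      rw [Finset.eq_univ_iff_forall]
      intro p
      rw [Finset.mem_biUnion]
      refine ⟨p, Finset.mem_univ _, ?_⟩
      rw [hF]
      exact Finset.mem_product.2 ⟨hs p, hr p⟩
    rw [h1, hf, ← Finset.mul_sum, Fintype.sum_prod_type]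
  rw [e0, Finset.inclusion_exclusion_sum_biUnion]
  refine Finset.sum_eq_zero fun T _ => ?_
  obtain ⟨T, hT⟩ := T
  have hTn : T.Nonempty := (Finset.mem_filter.1 hT).2
  have hmem : ∀ y : ZMod n × ZMod L, y ∈ T.inf' hTn F ↔ ∀ p ∈ T, y ∈ F p := by
    intro y
    rw [← Finset.singleton_subset_iff]
    have h1 := Finset.le_inf'_iff (s := T) (f := F) hTn (a := ({y} : Finset _))
    refine (h1.trans ?_)
    exact forall₂_congr fun p _ => Finset.singleton_subset_iff
  have hzero : ∑ y ∈ T.inf' hTn F, f y = 0 := by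
    rcases (T.inf' hTn F).eq_empty_or_nonempty with h0 | ⟨z, hz⟩
    · rw [h0, Finset.sum_empty]
    · have hz' := (hmem z).1 hz
      rw [hF] at hz'
      obtain ⟨p1, m1, p2, m2, A, hA1, hA2, hA3, hA4⟩ := arc_inf hTn s a (A := 2 * R + 1)
        (by omega) (fun p _ => ha p) (fun p hp => (Finset.mem_product.1 (hz' p hp)).1)
      obtain ⟨p3, m3, p4, m4, B', hB1, hB2, hB3, hB4⟩ := arc_inf hTn r b (A := 2 * R + 1)
        (by omega) (fun p _ => hb p) (fun p hp => (Finset.mem_product.1 (hz' p hp)).2)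
      have hE : T.inf' hTn F = arc (s p1) A ×ˢ arc (r p3) B' := by
        ext y
        rw [hmem, hF, Finset.mem_product, hA4, hB4]
        exact ⟨fun h => ⟨fun p hp => (Finset.mem_product.1 (h p hp)).1,
          fun p hp => (Finset.mem_product.1 (h p hp)).2⟩,
          fun h p hp => Finset.mem_product.2 ⟨h.1 p hp, h.2 p hp⟩⟩
      -- the sides
      have subA : ∀ p ∈ T, arc (s p1) A ⊆ arc (s p) (a p) := fun p hp y hy => (hA4 y).1 hy p hp
      have subB : ∀ p ∈ T, arc (r p3) B' ⊆ arc (r p) (b p) := fun p hp y hy => (hB4 y).1 hy p hp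
      have hA : A ≤ n := by omega
      have hB : B' ≤ L := by omega
      have colle : ∀ p ∈ T, ∀ t : ZMod n, col e t (r p3) B' ≤ col e t (r p) (b p) := by
        intro p hp t
        unfold col
        rw [← sum_arc hB (fun x => e t x),
          ← sum_arc (show b p ≤ L by have := hb p; omega) (fun x => e t x)]
        exact Finset.sum_le_sum_of_subset_of_nonneg (subB p hp) fun _ _ _ => he _ _
      have rowle : ∀ p ∈ T, ∀ x : ZMod L, row e (s p1) x A ≤ row e (s p) x (a p) := by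
        intro p hp x
        unfold row
        rw [← sum_arc hA (fun t => e t x),
          ← sum_arc (show a p ≤ n by have := ha p; omega) (fun t => e t x)]
        exact Finset.sum_le_sum_of_subset_of_nonneg (subA p hp) fun _ _ _ => he _ _
      have hring := ring_le he (s p1) (r p3) A B'
      rw [hA3, hB3] at hring
      have g1 := (colle p1 m1 (s p1)).trans_lt (c1 p1)
      have g2 := (colle p2 m2 (s p2 + ((a p2 - 1 : ℕ) : ZMod n))).trans_lt (c2 p2)
      have g3 := (rowle p3 m3 (r p3)).trans_lt (c3 p3)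
      have g4 := (rowle p4 m4 (r p4 + ((b p4 - 1 : ℕ) : ZMod L))).trans_lt (c4 p4)
      have hring' : ∑ p ∈ ring A B', e (s p1 + (p.1 : ZMod n)) (r p3 + (p.2 : ZMod L)) <
          4 * θ := by linarith
      have hgood : ∀ p ∈ ring A B', e (s p1 + (p.1 : ZMod n)) (r p3 + (p.2 : ZMod L)) <
          (D : ℝ)⁻¹ := by
        intro p hp
        refine lt_of_le_of_lt ?_ (hring'.trans_le hθ1)
        exact Finset.single_le_sum
          (f := fun p : ℕ × ℕ => e (s p1 + (p.1 : ZMod n)) (r p3 + (p.2 : ZMod L)))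
          (fun _ _ => he _ _) hp
      have hsmall : (D : ℝ) * ∑ p ∈ ring A B', e (s p1 + (p.1 : ZMod n)) (r p3 + (p.2 : ZMod L))
          ≤ ε := by
        have h3 := mul_le_mul_of_nonneg_left hring'.le hD0.le
        rw [hθD] at h3
        exact h3.trans hm2
      have hch : (c : ZMod N) * ∑ t ∈ Finset.range A, ∑ x ∈ Finset.range B',
          q (s p1 + (t : ZMod n)) (r p3 + (x : ZMod L)) = 0 :=
        hcon (s p1) (r p3) A B' hA1 hB1 (by omega) (by omega) hgood hsmall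
      rw [hE, Finset.sum_product, sum_arc hA, hf]
      simp only [← Finset.mul_sum]
      have e5 : ∀ t : ℕ, ∑ x ∈ arc (r p3) B', q (s p1 + (t : ZMod n)) x =
          ∑ x ∈ Finset.range B', q (s p1 + (t : ZMod n)) (r p3 + (x : ZMod L)) := fun t =>
        sum_arc hB fun x => q (s p1 + (t : ZMod n)) x
      simp only [e5]
      exact hch
  rw [hzero, smul_zero]

end Run7.h105.QS
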